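import Pool.Agent.V8Lead.AxWhole

/-!
# Blow-up of axisymmetric flows: outflow above `2 - μ` or inflow below `-2` at large swirl

Let `(u, p)` be a smooth axisymmetric solution of the Navier-Stokes equations on `(0, T) × ℝ³` with
viscosity `ν` and finite energy which blows up at the time `T`. Then there are singular points, they
all lie on the axis, and near each of them and near the time `T` there are points at which either

* the outflow is strong: `ν (2 - μ) + (c₂ / (T - t) + B(t)) ρ² < ρ v_ρ`, or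
* `ρ² < (ν (T - t)) ^ (2 c₁)`, the circulation is larger than the constant `ν δ(μ, c₂)`, the radial
  vorticity vanishes, the circulation has the sign of the axial vorticity, and the inflow is strong:
  `ρ v_ρ < ν (-2 + 2 (α + 1) / log ((ν (T - t)) ^ (2 c₁) / ρ²)) - (c₁ / (T - t) + B(t)) ρ²`.

Here `0 < μ < 2`, `c₂ ≥ 0`, `0 ≤ c₁ < 1 / 2`, `α > 0` and the integrable function `B` are arbitrary,
and the threshold `δ(μ, c₂) > 0` is universal.

The proof uses the library of the project AXI/AXW/AXQ of the starting files, assembled here for the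
first time.
-/

set_option autoImplicit false

open MeasureTheory Set Metric Filter Topology
open Pool.Agent.V8Lead.Ax

namespace Pool.Agent.Results.MP_09540e_an.InflowOrOutflow

/-- Each singular point of an axisymmetric flow is a limit of points with strong outflow or of
points with strong inflow and large swirl at which the radial vorticity vanishes. -/
theorem result : ∃ δ : ℝ → ℝ → ℝ, (∀ μ c₂ : ℝ, 0 < μ → μ < 2 → 0 ≤ c₂ → 0 < δ μ c₂) ∧
    ∀ (ν T : ℝ) (u : ℝ → Sp → Sp) (p : ℝ → Sp → ℝ), 0 < ν → Solution ν T u p →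
      (∀ t ∈ Ioo 0 T, Axisymmetric (u t)) → BlowUp T u →
      (∃ a, Singular T u a) ∧ ∀ a, Singular T u a → (a 0 = 0 ∧ a 1 = 0) ∧
        ∀ μ c₂ : ℝ, 0 < μ → μ < 2 → 0 ≤ c₂ →
        ∀ (B : ℝ → ℝ) (c₁ α T₀ R : ℝ), ContinuousOn B (Ioo 0 T) → IntegrableOn B (Ioo 0 T) →
          0 ≤ c₁ → c₁ < 1 / 2 → 0 < α → T₀ < T → 0 < R →
            ∃ t ∈ Ioo 0 T, T₀ < t ∧ ∃ x : Sp, ‖x - a‖ ≤ R ∧ 0 < rho2 x ∧ rho2 x < 1 ∧
              (ν * (2 - μ) + (c₂ / (T - t) + B t) * rho2 x < rhoRad (u t) x ∨
                (rho2 x < (ν * (T - t)) ^ (2 * c₁) ∧ ν * δ μ c₂ < |swirl (u t) x| ∧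
                  rhoRad (curl (u t)) x = 0 ∧ 0 < swirl (u t) x * curl (u t) x 2 ∧
                  rhoRad (u t) x <
                    ν * (-2 + 2 * (α + 1) / Real.log ((ν * (T - t)) ^ (2 * c₁) / rho2 x))
                      - (c₁ / (T - t) + B t) * rho2 x)) := by
  obtain ⟨dl, hM, hpos⟩ := Pool.Agent.V8Lead.p_MainQ
  refine ⟨fun μ c₂ => dl μ c₂ / 2, fun μ c₂ h1 h2 h3 => half_pos (hpos μ c₂ h1 h2 h3), ?_⟩
  intro ν T u p hν h hax hblow
  exact ⟨exists_singular hν h hblow, fun a hs => ⟨singular_axis hν h hax hs,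
    fun μ c₂ h1 h2 h3 => twosided hM hν h hax hs h1 h2 h3⟩⟩

end Pool.Agent.Results.MP_09540e_an.InflowOrOutflow
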