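import Pool.Agent.V8H53.AX.Frm

/-!
# Blow-up of axisymmetric flows: the inflow where the swirl is not small, in integral form

Let `(u, p)` be a smooth axisymmetric solution of the Navier-Stokes equations on `(0, T) × ℝ³` with
viscosity `ν` and finite energy which blows up at the time `T`. Then there are singular points, they
all lie on the axis, and near each of them the inflow at the points with large circulation is strong
in the sense of quadratic forms: the Schrödinger operator
`-(1 - δ) ν (Δ / (l + 1) - 2 / ρ²) + ρ ^ (-γ) |P| + 1_S v_ρ / ρ`, where `S` is the set of the points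
with outflow or with circulation `|Γ| > M ρ ^ β`, on the axisymmetric functions with support near the
singular point which vanish on the axis, is not bounded below by `-c₁ / (T - t) - A(t)` for almost
all times `t` near `T`, whatever the integrable function `A` and the function `P` in the critical
Lebesgue space are. Here `δ > 0`, `β > 0` and `M ≥ 0` are arbitrary, `8 (l + 1) c₁ < 4 l + 1`,
`0 ≤ γ < 2`, `(2 - γ) q > 3` and `P` is in `L^r_t L^q_x` near the singular point, where
`2 / r + 3 / q = 2 - γ`.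

For instance, since `-v_ρ / ρ ≤ ν / ρ² + (v_ρ⁻)² / (4 ν)`, the choice of `P = ρ ^ γ (v_ρ⁻)² / (4 ν)` on
the set `|Γ| > M ρ ^ β` shows that `ρ ^ d v_ρ⁻`, `0 ≤ d < 1`, is not in `L^r_t L^s_x` on this set near
the singular point, where `2 / r + 3 / s = 1 - d`: a one-sided criterion of Prodi-Serrin type (see
`Pool.Agent.V8H53.AX.ser_top`; `Pool.Agent.V8H53.AX.exc_top` is a form with the constant `2`).

The proof bounds `∫ ρ ^ (-4 (l + 1)) Γ ^ (2 k)` for large `k` by an energy estimate; it uses the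
library of the project AXI of the starting files.
-/

set_option autoImplicit false

open MeasureTheory Set Metric Filter Topology
open scoped ContDiff
open Pool.Agent.V8Lead.Ax

namespace Pool.Agent.Results.MP_09540e_an.InflowSpectrum

/-- The test functions: smooth axisymmetric functions with compact support in the closed ball of
radius `R` about `a` which vanish on the axis. -/
structure Test (a : Sp) (R : ℝ) (g : Sp → ℝ) : Prop where
  smooth : ContDiff ℝ ∞ g
  compact : HasCompactSupport g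
  axisymmetric : ∀ (θ : ℝ) (x : Sp), g (rotZ θ x) = g x
  support : tsupport g ⊆ closedBall a R
  axis : ∀ x, rho2 x = 0 → g x = 0

/-- The inflow near each singular point of an axisymmetric flow, at the points where the swirl is
not small, is strong in the sense of quadratic forms. -/
theorem result (ν T : ℝ) (u : ℝ → Sp → Sp) (p : ℝ → Sp → ℝ) (hν : 0 < ν) (h : Solution ν T u p)
    (hax : ∀ t ∈ Ioo 0 T, Axisymmetric (u t)) (hblow : BlowUp T u) :
    (∃ a, Singular T u a) ∧ ∀ a, Singular T u a → (a 0 = 0 ∧ a 1 = 0) ∧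
      ∀ (l : ℕ) (A : ℝ → ℝ) (P : ℝ → Sp → ℝ) (δ c₁ β M γ q T₀ R : ℝ), 0 < δ → 0 ≤ c₁ →
        8 * (l + 1) * c₁ < 4 * l + 1 → 0 < β → 0 ≤ M → 0 ≤ γ → γ < 2 → 3 < (2 - γ) * q →
        0 ≤ T₀ → T₀ < T → 0 < R → IntegrableOn A (Ioo T₀ T) →
        Measurable (fun z : ℝ × Sp => P z.1 z.2) →
        ∫⁻ t in Ioo T₀ T, (∫⁻ x in closedBall a R, ENNReal.ofReal (|P t x| ^ q))
          ^ (2 / ((2 - γ) * q - 3)) < ⊤ →
        0 < volume {t : ℝ | t ∈ Ioo T₀ T ∧ ∃ g : Sp → ℝ, Test a R g ∧
          (1 - δ) * ν * (∫ x, ((∑ i, part i g x ^ 2) / (l + 1) + 2 * g x ^ 2 / rho2 x))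
            + (∫ x, (c₁ / (T - t) + A t + rho2 x ^ (-(γ / 2)) * |P t x|) * g x ^ 2) <
          -(∫ x in {x | 0 < rhoRad (u t) x ∨ M * rho2 x ^ (β / 2) < |swirl (u t) x|},
            rhoRad (u t) x / rho2 x * g x ^ 2)} := by
  refine ⟨exists_singular hν h hblow, fun a hs => ⟨singular_axis hν h hax hs, ?_⟩⟩
  obtain ⟨E, hE⟩ := h.wsl
  obtain ⟨h0, h1⟩ := singular_axis hν h hax hs
  have hS : Pool.Agent.V8H53.AX.InflS ν T u a :=
    Pool.Agent.V8H53.AX.infl_DS Pool.Agent.V8H53.AX.p_MainS Pool.Agent.V8Lead.p_Tra hν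
      (Pool.Agent.Q85.CL.whole_D hE a)
      (fun t ht => (Pool.Agent.Q285.AXI.slice h.smooth_u ht).continuous)
      (fun t ht θ x _ _ => hax t ht θ x) (mem_ball_self (by norm_num)) h0 h1 hs
  intro l A P δ c₁ β M γ q T₀ R hδ hc₁ hlc hβ hM hγ0 hγ2 hq hT₀ hT hR hA hP hPi
  refine (Pool.Agent.V8H53.AX.infl_P hν hS l hδ hc₁ hlc hβ hM hγ0 hγ2 hq hT₀ hT hR hA hP
    hPi).trans_le (measure_mono ?_)
  rintro t ⟨ht, g, ⟨sg, cg, ag, tg, zg⟩, hlt⟩
  exact ⟨ht, g, ⟨sg, cg, ag, tg, zg⟩, hlt⟩

end Pool.Agent.Results.MP_09540e_an.InflowSpectrum
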