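import Pool.Agent.V8Lead.AxWhole

/-!
# Blow-up of axisymmetric flows: strong inflow where the swirl is not small

Let `(u, p)` be a smooth axisymmetric solution of the Navier-Stokes equations on `(0, T) × ℝ³` with
viscosity `ν` and finite energy which blows up at the time `T`. Then there are singular points, they
all lie on the axis, and near each of them and near the time `T` there are points at which

* the square `ρ²` of the distance to the axis is below `(ν (T - t)) ^ (2 c₁)`,
* the circulation is larger than `C |log| ^ (-α)`, where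
  `log = log ((ν (T - t)) ^ (2 c₁) / ρ²)`,
* the radial vorticity vanishes and the circulation has the sign of the axial vorticity,
* the inflow is strong: `ρ v_ρ < ν (-2 + 2 (α + 1) / log) - (c₁ / (T - t) + B(t)) ρ²`.

Here `α > 3 / 2`, `C ≥ 0`, `0 ≤ c₁ < 1 / 2` and the integrable function `B` are arbitrary.

The proof uses the library of the project AXI/AXP of the starting files (assembled here for the first
time; the estimate `StmBtP` was missing there and is proved in `Pool/Agent/V8Lead/BtP.lean`).
-/

set_option autoImplicit false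

open MeasureTheory Set Metric Filter Topology
open Pool.Agent.V8Lead.Ax

namespace Pool.Agent.Results.MP_09540e_an.StrongInflow

/-- Each singular point of an axisymmetric flow is a limit of points with strong inflow at which the
swirl is not small and the radial vorticity vanishes. -/
theorem result (ν T : ℝ) (u : ℝ → Sp → Sp) (p : ℝ → Sp → ℝ) (hν : 0 < ν) (h : Solution ν T u p)
    (hax : ∀ t ∈ Ioo 0 T, Axisymmetric (u t)) (hblow : BlowUp T u) :
    (∃ a, Singular T u a) ∧ ∀ a, Singular T u a → (a 0 = 0 ∧ a 1 = 0) ∧
      ∀ (B : ℝ → ℝ) (c₁ α C T₀ R : ℝ), ContinuousOn B (Ioo 0 T) → IntegrableOn B (Ioo 0 T) →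
        0 ≤ c₁ → c₁ < 1 / 2 → 3 / 2 < α → 0 ≤ C → T₀ < T → 0 < R →
          ∃ t ∈ Ioo 0 T, T₀ < t ∧ ∃ x : Sp, ‖x - a‖ ≤ R ∧ 0 < rho2 x ∧
            rho2 x < (ν * (T - t)) ^ (2 * c₁) ∧
            C * Real.log ((ν * (T - t)) ^ (2 * c₁) / rho2 x) ^ (-α) < |swirl (u t) x| ∧
            rhoRad (curl (u t)) x = 0 ∧ 0 < swirl (u t) x * curl (u t) x 2 ∧
            rhoRad (u t) x <
              ν * (-2 + 2 * (α + 1) / Real.log ((ν * (T - t)) ^ (2 * c₁) / rho2 x))
                - (c₁ / (T - t) + B t) * rho2 x :=
  ⟨exists_singular hν h hblow, fun _ hs => ⟨singular_axis hν h hax hs, inflow hν h hax hs⟩⟩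

end Pool.Agent.Results.MP_09540e_an.StrongInflow
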