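import Pool.Agent.V8H53.OW.TraX
import Pool.Agent.V8H53.OW.Osc
import Pool.Agent.V8H53.OW.Ker
import Pool.Agent.V8H53.OW.DG
import Pool.Agent.V8H53.OW.Lg
import Pool.Agent.V8H53.OW.Thr2
import Pool.Agent.V8H53.OW.Mass
import Pool.Agent.V8H53.OW.W1
import Pool.Agent.V8H53.OW.Fi
import Pool.Agent.V8H53.OW.Far1
import Pool.Agent.V8H53.OW.Far4

/-!
# Blow-up of axisymmetric flows: the production of `ω_θ / ρ`

Let `(u, p)` be a smooth axisymmetric solution of the Navier-Stokes equations on `(0, T) × ℝ³` with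
viscosity `ν` and finite energy which blows up at the time `T`. Write `G = ω_θ / ρ` and
`W = v_θ / ρ`; then `∂ₜ G + u · ∇ G = ν (Δ + (2 / ρ) ∂_ρ) G + ∂_z (W²)`. There are singular points,
they all lie on the axis. Let `a` be one of them and

`θ = √(1 + W²) + (|x - a|² + ν (T - t)) ^ (-d) + (ρ² + ν (T - t)) ^ (-b)`, `b < 1`, `d < 5 / 4`

(in the scaling of the equations `G` has the exponent `d = 3 / 2`). Then for both signs `s`, for all
`M`, for all neighbourhoods of `a` and all time intervals before `T`, the positive part of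
`s ∂_z (W²)`, the production of `s G`, has infinite integral over the set where
`ρ² < (ν (T - t)) ^ g`, `g < 1 / 2`, and where

`s G > M θ`, `|ω_ρ / ρ| = |∂_z W| > M θ`, `W² > M (θ + |G| ^ k)`, `k < 1`.

So on this set `s G` is between `M |W|` and `|W| ^ (2 + ε)` (in the scaling of the equations `G` is
like `|W| ^ (3 / 2)`).

In particular (all this near `a`, before `T`):

* `ω_θ / ρ` is unbounded above and unbounded below; even `ω_θ > C |v_θ|` and `ω_θ < -C |v_θ|` occur
  for all `C`, at points where also `v_θ² / ρ²` and `|ω_ρ| / ρ` are large;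
* `|v_θ|` is neither nondecreasing nor nonincreasing in `z`;
* a one-sided bound `s ω_θ / ρ ≤ M θ`, or the finiteness of the production of one sign on one of
  the sets above, implies regularity.

For comparison: the integral of `ρ |∂_z (W²)| ≤ |∇ u|²` is finite for all solutions, and the integral
of `|∂_z (W²)|` is invariant under the scaling of the equations.

The proof: an `L¹` estimate of `G`. A convex function of `G` minus the threshold, whose production is
finite, controls one part of `G`; the balance of the integral of `G` controls the other part. The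
production where `W²` is not above `M (θ + |G| ^ k)` is absorbed by the dissipation. The integral of
`|G|` gives an estimate of the stream function, then De Giorgi's method for the circulation
`Γ = ρ v_θ` gives `|Γ| ≤ M ρ ^ β`, and the theorem behind `InflowSpectrum` gives regularity.
-/

set_option autoImplicit false

open MeasureTheory Set Metric Filter Topology
open scoped ContDiff
open Pool.Agent.V8Lead.Ax

namespace Pool.Agent.Results.MP_09540e_an.VorticityProduction

/-- `v_θ / ρ`, the angular velocity. -/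
noncomputable def angular (v : Sp → Sp) (x : Sp) : ℝ := swirl v x / rho2 x

/-- `ω_θ / ρ`, where `ω` is the vorticity. -/
noncomputable def ratio (v : Sp → Sp) (x : Sp) : ℝ := swirl (curl v) x / rho2 x

/-- The threshold `√(1 + (v_θ / ρ)²) + (|x - a|² + τ) ^ (-d) + (ρ² + τ) ^ (-b)`, where `a` is a point
of the axis. -/
noncomputable def threshold (b d τ : ℝ) (a : Sp) (v : Sp → Sp) (x : Sp) : ℝ :=
  Real.sqrt (1 + angular v x ^ 2) + (rho2 x + (x 2 - a 2) ^ 2 + τ) ^ (-d) + (rho2 x + τ) ^ (-b)

/-- The production of `ω_θ / ρ` near the singular points of an axisymmetric flow. -/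
theorem result (ν T : ℝ) (u : ℝ → Sp → Sp) (p : ℝ → Sp → ℝ) (hν : 0 < ν) (h : Solution ν T u p)
    (hax : ∀ t ∈ Ioo 0 T, Axisymmetric (u t)) (hblow : BlowUp T u) :
    (∃ a, Singular T u a) ∧ ∀ a, Singular T u a → (a 0 = 0 ∧ a 1 = 0) ∧
      ∀ s M b d g k T₀ R : ℝ, |s| = 1 → 0 ≤ b → b < 1 → 0 ≤ d → d < 5 / 4 → 0 ≤ g → g < 1 / 2 →
        0 ≤ k → k < 1 → 0 ≤ T₀ → T₀ < T → 0 < R →
        ∫⁻ t in Ioo T₀ T, ∫⁻ x in {x | x ∈ closedBall a R ∧ rho2 x < (ν * (T - t)) ^ g ∧
          M * (threshold b d (ν * (T - t)) a (u t) x + |ratio (u t) x| ^ k) <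
            angular (u t) x ^ 2 ∧
          M * threshold b d (ν * (T - t)) a (u t) x < |part 2 (angular (u t)) x| ∧
          M * threshold b d (ν * (T - t)) a (u t) x < s * ratio (u t) x},
          ENNReal.ofReal (s * part 2 (fun y => angular (u t) y ^ 2) x) = ⊤ := by
  refine ⟨exists_singular hν h hblow, fun a hs => ⟨singular_axis hν h hax hs, ?_⟩⟩
  obtain ⟨E, hE⟩ := h.wsl
  obtain ⟨h0, h1⟩ := singular_axis hν h hax hs
  have hOsc : Pool.Agent.V8H53.OW.StmOsc :=
    Pool.Agent.V8H53.OW.osc Pool.Agent.V8H53.OW.p_DG Pool.Agent.V8H53.OW.p_Lg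
  have hsm : ∀ t ∈ Ioo 0 T, ContDiff ℝ ∞ (u t) := fun t ht =>
    Pool.Agent.Q285.AXI.slice h.smooth_u ht
  exact Pool.Agent.V8H53.OW.prod_DX Pool.Agent.V8H53.OW.p_Ker hOsc
    Pool.Agent.V8H53.OW.p_Thr2 Pool.Agent.V8H53.OW.p_Mass Pool.Agent.V8H53.OW.p_Har2
    Pool.Agent.V8H53.OW.p_W1 (Pool.Agent.V8H53.OW.p_Far1 Pool.Agent.V8H53.OW.p_Fi)
    (Pool.Agent.V8H53.OW.p_Far4 Pool.Agent.V8H53.OW.p_Fi Pool.Agent.V8H53.OW.p_Fj)
    Pool.Agent.V8Lead.p_Tra hν (Pool.Agent.Q85.CL.whole_D hE a) hsm hax
    (mem_ball_self (by norm_num)) h0 h1 hs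

end Pool.Agent.Results.MP_09540e_an.VorticityProduction
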